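import Mathlib
import Pool.Agent.H95R2.TG.Final
import Pool.Agent.H95R2.TG.H5

/-! Integers m in [N, 2N] of the form φ(n)/2, n prime, all of whose prime factors are large and 1 mod 4. -/

set_option autoImplicit false

theorem Pool.Agent.Results.MP_39eeea_nt.AllSplitValues.result :
    ∃ c : ℝ, 0 < c ∧ ∃ N₀ : ℕ, ∀ N : ℕ, N₀ ≤ N →
      c * (N / Real.log N ^ 2) ≤
        (Set.ncard {m : ℕ | N ≤ m ∧ m ≤ 2 * N ∧ (∃ q : ℕ, q.Prime ∧ Nat.totient q = 2 * m) ∧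
          ∀ r : ℕ, r.Prime → r ∣ m → r % 4 = 1 ∧ (N : ℝ) ^ c ≤ (r : ℝ)} : ℝ) := by
  classical
  obtain ⟨c, hc, N0, h⟩ := Pool.Agent.H95R2.TG.powk Pool.Agent.H95R2.TG.main_holds 1 le_rfl
  refine ⟨c / 4, by positivity, max N0 3, fun N hN => ?_⟩
  have hN3 : 3 ≤ N := le_trans (le_max_right _ _) hN
  have hN0 : N0 ≤ 2 * N + 1 := by have := le_trans (le_max_left _ _) hN; omega
  have h1 := h (2 * N + 1) hN0
  have hNr : (3 : ℝ) ≤ N := by exact_mod_cast hN3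
  have hlog : 0 < Real.log N := Real.log_pos (by linarith)
  have hlog2 : Real.log ((2 * N + 1 : ℕ) : ℝ) ≤ 2 * Real.log N := by
    have h2 : 2 * Real.log N = Real.log ((N : ℝ) * N) := by
      rw [Real.log_mul (by positivity) (by positivity)]
      ring
    rw [h2]
    push_cast
    exact Real.log_le_log (by positivity) (by nlinarith)
  have hlog3 : 0 < Real.log ((2 * N + 1 : ℕ) : ℝ) := Real.log_pos (by push_cast; linarith)
  have h3 : c / 4 * ((N : ℝ) / Real.log N ^ 2) ≤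
      c * (((2 * N + 1 : ℕ) : ℝ) / Real.log ((2 * N + 1 : ℕ) : ℝ) ^ 2) := by
    have h4 : (N : ℝ) / (4 * Real.log N ^ 2) ≤
        ((2 * N + 1 : ℕ) : ℝ) / Real.log ((2 * N + 1 : ℕ) : ℝ) ^ 2 := by
      apply div_le_div₀ (by positivity) (by push_cast; linarith) (by positivity)
      nlinarith
    have h5 : c / 4 * ((N : ℝ) / Real.log N ^ 2) = c * ((N : ℝ) / (4 * Real.log N ^ 2)) := by
      field_simp
    rw [h5]
    exact mul_le_mul_of_nonneg_left h4 hc.le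
  refine h3.trans (h1.trans ?_)
  rw [← Set.ncard_coe_finset]
  have hfin : {m : ℕ | N ≤ m ∧ m ≤ 2 * N ∧ (∃ q : ℕ, q.Prime ∧ Nat.totient q = 2 * m) ∧
          ∀ r : ℕ, r.Prime → r ∣ m → r % 4 = 1 ∧ (N : ℝ) ^ (c / 4) ≤ (r : ℝ)}.Finite :=
    (Set.finite_Iic (2 * N)).subset fun n hn => hn.2.1
  refine Nat.cast_le.2 (Set.ncard_le_ncard_of_injOn (fun p => (p - 1) / 2) ?_ ?_ hfin)
  · intro p hp
    simp only [Finset.coe_filter, Finset.mem_Icc, Set.mem_ofPred_eq] at hp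
    obtain ⟨⟨h1, h2⟩, h3, n, h4, h5⟩ := hp
    have hn : (p - 1) / 2 = n := by omega
    show (p - 1) / 2 ∈ _
    rw [hn]
    refine ⟨by omega, by omega, ⟨p, h3, ?_⟩, fun r hr hrn => ⟨(h5 r hr hrn).1, le_trans ?_ (h5 r hr hrn).2⟩⟩
    · rw [Nat.totient_prime h3]; omega
    · calc (N : ℝ) ^ (c / 4) ≤ (N : ℝ) ^ c :=
            Real.rpow_le_rpow_of_exponent_le (by linarith) (by linarith)
        _ ≤ ((2 * N + 1 : ℕ) : ℝ) ^ c :=
            Real.rpow_le_rpow (by positivity) (by push_cast; linarith) hc.le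
  · intro p hp q hq hpq
    simp only [Finset.coe_filter, Finset.mem_Icc, Set.mem_ofPred_eq] at hp hq
    obtain ⟨-, -, n, h4, -⟩ := hp
    obtain ⟨-, -, m, h6, -⟩ := hq
    have : (p - 1) / 2 = (q - 1) / 2 := hpq
    omega
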